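import Mathlib
import Pool.Agent.H16.FNoeth

set_option autoImplicit false

namespace Pool.Agent.Results.MP_f4ff42_al.No

open Pool.Agent.H16.FNoeth

theorem result : ∃ (S : Type) (_ : Semigroup S), FNoetherian S ∧ CompletelyRegular S ∧ ¬ FG S :=
  main

end Pool.Agent.Results.MP_f4ff42_al.No
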